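import Pool.Agent.Helper74.OKA.St.A02

set_option autoImplicit false

open Set Metric Topology MeasureTheory
open scoped Manifold ContDiff

namespace Pool.Agent.Helper65.OKA

open Pool.Agent.Helper74.OKA

namespace A03

variable {G F : Type} [NormedAddCommGroup G] [NormedSpace ℂ G] [FiniteDimensional ℂ G]
  [NormedAddCommGroup F] [NormedSpace ℂ F] [FiniteDimensional ℂ F]

theorem fderiv_apply_hol {U : Set G} (hU : IsOpen U) {f : G → F}
    (hf : DifferentiableOn ℂ f U) (v : G) :
    DifferentiableOn ℂ (fun z => fderiv ℂ f z v) U := by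
  have : CompleteSpace F := FiniteDimensional.complete ℂ F
  have : ProperSpace G := FiniteDimensional.proper ℂ G
  intro z0 hz0
  obtain ⟨δ, hδ, hδU⟩ := Metric.nhds_basis_closedBall.mem_iff.1 (hU.mem_nhds hz0)
  have hv : 0 < 1 + ‖v‖ := by positivity
  set r : ℝ := δ / (2 * (1 + ‖v‖)) with hr
  have hr0 : 0 < r := by positivity
  have hrv : r * ‖v‖ ≤ δ / 2 := by
    rw [hr, div_mul_eq_mul_div, div_le_div_iff₀ (by positivity) (by norm_num)]
    nlinarith [norm_nonneg v]
  have hin : ∀ z ∈ ball z0 (δ / 2), ∀ ζ : ℂ, ‖ζ‖ ≤ r → z + ζ • v ∈ closedBall z0 δ := by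
    intro z hz ζ hζ
    rw [mem_closedBall, dist_eq_norm]
    rw [mem_ball, dist_eq_norm] at hz
    calc ‖z + ζ • v - z0‖ = ‖(z - z0) + ζ • v‖ := by congr 1; abel
      _ ≤ ‖z - z0‖ + ‖ζ • v‖ := norm_add_le _ _
      _ ≤ δ / 2 + r * ‖v‖ := by
        rw [norm_smul]
        exact add_le_add hz.le (mul_le_mul_of_nonneg_right hζ (norm_nonneg v))
      _ ≤ δ := by linarith
  have hcirc : ∀ τ : ℝ, ‖circleMap 0 r τ‖ = r := fun τ => by
    rw [norm_circleMap_zero, abs_of_pos hr0]
  let h : ℝ → G → F := fun τ z => (2 * Real.pi * Complex.I : ℂ)⁻¹ •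
    deriv (circleMap 0 r) τ • ((circleMap 0 r τ - 0) ^ 2)⁻¹ • f (z + circleMap 0 r τ • v)
  have heq : ∀ z ∈ ball z0 (δ / 2), fderiv ℂ f z v =
      ∫ τ, h τ z ∂(volume.restrict (Ioc 0 (2 * Real.pi))) := by
    intro z hz
    let V : Set ℂ := (fun ζ : ℂ => z + ζ • v) ⁻¹' U
    have hV : IsOpen V := hU.preimage (by fun_prop)
    have hVc : closedBall (0 : ℂ) r ⊆ V := fun ζ hζ =>
      hδU (hin z hz ζ (by simpa using hζ))
    have hg : DifferentiableOn ℂ (fun ζ : ℂ => f (z + ζ • v)) V :=
      hf.comp (by fun_prop) fun ζ hζ => hζ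
    have h1 := Complex.two_pi_I_inv_smul_circleIntegral_sub_sq_inv_smul_of_differentiable hV hVc
      hg (mem_ball_self hr0)
    have hzU : z ∈ U := by
      have := hin z hz 0 (by simpa using hr0.le)
      rw [zero_smul, add_zero] at this
      exact hδU this
    have h2 : HasDerivAt (fun ζ : ℂ => f (z + ζ • v)) (fderiv ℂ f z v) 0 := by
      have h3 : HasFDerivAt f (fderiv ℂ f z) (z + (0 : ℂ) • v) := by
        rw [zero_smul, add_zero]
        exact (hf.differentiableAt (hU.mem_nhds hzU)).hasFDerivAt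
      have h4 : HasDerivAt (fun ζ : ℂ => z + ζ • v) v 0 := by
        have h5 := ((hasDerivAt_id (0 : ℂ)).smul_const v).const_add z
        rwa [one_smul] at h5
      exact h3.comp_hasDerivAt (0 : ℂ) h4
    rw [h2.deriv, circleIntegral,
      intervalIntegral.integral_of_le (by positivity), ← integral_smul] at h1
    exact h1.symm
  have hcm : Continuous fun τ : ℝ => circleMap 0 r τ := continuous_circleMap 0 r
  have hcm2 : Continuous fun τ : ℝ => deriv (circleMap 0 r) τ := by
    simp only [deriv_circleMap]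
    fun_prop
  have hcm3 : Continuous fun τ : ℝ => ((circleMap 0 r τ - 0) ^ 2)⁻¹ := by
    refine Continuous.inv₀ (by fun_prop) fun τ => ?_
    rw [sub_zero]
    exact pow_ne_zero _ fun h0 => by
      have := hcirc τ
      rw [h0, norm_zero] at this
      exact hr0.ne this
  obtain ⟨C, hC⟩ := (isCompact_closedBall z0 δ).exists_bound_of_continuousOn
    (hf.continuousOn.mono hδU)
  have hC0 : 0 ≤ C := (norm_nonneg _).trans (hC z0 (mem_closedBall_self hδ.le))
  have hmain : DifferentiableOn ℂ
      (fun z => ∫ τ, h τ z ∂(volume.restrict (Ioc 0 (2 * Real.pi)))) (ball z0 (δ / 2)) := by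
    refine differentiableOn_integral (volume.restrict (Ioc 0 (2 * Real.pi))) Set.univ
      MeasurableSet.univ (by simp) isOpen_ball h ?_ ?_ ?_
    · refine ContinuousOn.const_smul ?_ _
      refine ContinuousOn.smul (hcm2.comp continuous_fst).continuousOn ?_
      refine ContinuousOn.smul (hcm3.comp continuous_fst).continuousOn ?_
      refine hf.continuousOn.comp (t := U) (Continuous.continuousOn ?_) ?_
      · exact continuous_snd.add ((hcm.comp continuous_fst).smul continuous_const)
      · rintro ⟨τ, z⟩ ⟨-, hz⟩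
        exact hδU (hin z hz _ (hcirc τ).le)
    · intro τ _
      refine DifferentiableOn.const_smul ?_ _
      refine DifferentiableOn.const_smul ?_ _
      refine DifferentiableOn.const_smul ?_ _
      exact hf.comp (by fun_prop) fun z hz => hδU (hin z hz _ (hcirc τ).le)
    · intro q hq
      refine ⟨‖(2 * Real.pi * Complex.I : ℂ)⁻¹‖ * (r * ((r ^ 2)⁻¹ * C)), ball z0 (δ / 2),
        isOpen_ball.mem_nhds hq, fun x hx τ _ => ?_⟩
      simp only [h, norm_smul]
      refine mul_le_mul_of_nonneg_left ?_ (norm_nonneg _)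
      have e1 : ‖deriv (circleMap 0 r) τ‖ = r := by
        rw [deriv_circleMap, norm_mul, Complex.norm_I, mul_one, hcirc]
      have e2 : ‖((circleMap 0 r τ - 0) ^ 2)⁻¹‖ = (r ^ 2)⁻¹ := by
        rw [norm_inv, norm_pow, sub_zero, hcirc]
      rw [e1, e2]
      refine mul_le_mul_of_nonneg_left (mul_le_mul_of_nonneg_left ?_ (by positivity)) hr0.le
      exact hC _ (hin x hx _ (hcirc τ).le)
  have h6 : DifferentiableAt ℂ (fun z => fderiv ℂ f z v) z0 := by
    have h7 : DifferentiableAt ℂ
        (fun z => ∫ τ, h τ z ∂(volume.restrict (Ioc 0 (2 * Real.pi)))) z0 :=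
      hmain.differentiableAt (isOpen_ball.mem_nhds (mem_ball_self (by positivity)))
    refine h7.congr_of_eventuallyEq ?_
    filter_upwards [isOpen_ball.mem_nhds (mem_ball_self (x := z0) (half_pos hδ))] with z hz
    exact heq z hz
  exact h6.differentiableWithinAt

end A03

variable {G F : Type} [NormedAddCommGroup G] [NormedSpace ℂ G] [FiniteDimensional ℂ G]
  [NormedAddCommGroup F] [NormedSpace ℂ F] [FiniteDimensional ℂ F]

/-- A0a: the derivative of a holomorphic function of several variables is holomorphic -/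
theorem differentiableOn_fderiv {U : Set G} (hU : IsOpen U) {f : G → F}
    (hf : DifferentiableOn ℂ f U) : DifferentiableOn ℂ (fderiv ℂ f) U := by
  let b := Module.finBasis ℂ G
  have h1 : fderiv ℂ f = fun z => ∑ i, (LinearMap.toContinuousLinearMap (b.coord i)).smulRight
      (fderiv ℂ f z (b i)) := by
    funext z
    ext x
    have h2 := b.sum_repr x
    conv_lhs => rw [← h2, map_sum]
    rw [_root_.sum_apply]
    refine Finset.sum_congr rfl fun i _ => ?_
    rw [map_smul]
    rfl
  rw [h1]
  refine DifferentiableOn.fun_sum fun i _ => ?_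
  have h3 : DifferentiableOn ℂ (fun z => fderiv ℂ f z (b i)) U := A03.fderiv_apply_hol hU hf (b i)
  exact ((ContinuousLinearMap.smulRightL ℂ G F
    (LinearMap.toContinuousLinearMap (b.coord i))).differentiable.comp_differentiableOn h3)

/-- A0b -/
theorem contDiffOn_of_differentiableOn {U : Set G} (hU : IsOpen U) {f : G → F}
    (hf : DifferentiableOn ℂ f U) (n : ℕ) : ContDiffOn ℂ n f U := by
  induction n generalizing F with
  | zero =>
    rw [Nat.cast_zero, contDiffOn_zero]
    exact hf.continuousOn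
  | succ n ih =>
    rw [Nat.cast_add, Nat.cast_one, contDiffOn_succ_iff_fderiv_of_isOpen hU]
    refine ⟨hf, fun h => ?_, ih (differentiableOn_fderiv hU hf)⟩
    exact absurd h (WithTop.natCast_ne_top n)

end Pool.Agent.Helper65.OKA
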